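import Mathlib

/-!
# MP_0a3467_an, Q2: positivity along `m, m + n, …, m + ℓ n` for several multiplicative actions

We prove that the statement asked in Q2 holds for a given `ℓ` if and only if `ℓ ≤ 1`.

* For `ℓ ≥ 2` it fails: two non-commuting flows `V`, `W` on `𝕋 × {0,1}^ℤ`, sampled at times
  `log n / log 4`, and a set `A` of measure `1/4`, such that
  `{V_{m+n} ∈ A} ∩ {W_{m+2n} ∈ A}` is empty as soon as `m + n ≥ 4`.
* For `ℓ = 1` (and trivially `ℓ = 0`) it holds for arbitrary (non-commuting, not finitely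
  generated) multiplicative actions.
-/

open MeasureTheory Set Filter Topology
open scoped ENNReal

namespace Pool.Agent.Results.MP_0a3467_an.Dichotomy

/-- A multiplicative action on `(X, μ)`: invertible measure preserving maps `T n`, `n ≥ 1`,
with `T 1 = id` and `T (m n) = T m ∘ T n`. -/
structure MultAction {X : Type} [MeasurableSpace X] (μ : Measure X) where
  /-- the maps of the action -/
  T : ℕ+ → X ≃ᵐ X
  one : ∀ x, T 1 x = x
  mul : ∀ m n x, T (m * n) x = T m (T n x)
  mp : ∀ n, MeasurePreserving (T n) μ μ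

/-- The positive integer `m + j n`. -/
def lin (m n : ℕ+) (j : ℕ) : ℕ+ := ⟨(m : ℕ) + j * n, Nat.add_pos_left m.pos _⟩

/-- The average over `(m, n) ∈ [N]²` of `μ (⋂ j, T_{j, m + j n}⁻¹ A)`. -/
noncomputable def avg {X : Type} [MeasurableSpace X] {μ : Measure X} {ℓ : ℕ}
    (T : Fin (ℓ + 1) → MultAction μ) (A : Set X) (N : ℕ+) : ℝ≥0∞ :=
  (∑ m ∈ Finset.Icc 1 N, ∑ n ∈ Finset.Icc 1 N,
    μ (⋂ j : Fin (ℓ + 1), (T j).T (lin m n j) ⁻¹' A)) / ((N : ℕ) : ℝ≥0∞) ^ 2

/-- The assertion of Q2 for a given `ℓ`. -/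
def Q2At (ℓ : ℕ) : Prop :=
  ∀ (X : Type) [MeasurableSpace X] [StandardBorelSpace X] (μ : Measure X)
    [IsProbabilityMeasure μ] (T : Fin (ℓ + 1) → MultAction μ) (A : Set X),
    MeasurableSet A → 0 < μ A → 0 < liminf (avg T A) atTop

/-! ### The counterexample for `ℓ ≥ 2` -/

/-- The representative in `[0, 1)` of a point of the circle. -/
noncomputable def rep (s : UnitAddCircle) : ℝ := (AddCircle.equivIco 1 0 s : ℝ)

theorem rep_nonneg (s : UnitAddCircle) : 0 ≤ rep s := (AddCircle.equivIco 1 0 s).2.1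

theorem rep_lt_one (s : UnitAddCircle) : rep s < 1 := by
  have h : rep s < 0 + 1 := (AddCircle.equivIco 1 0 s).2.2
  linarith

theorem coe_rep (s : UnitAddCircle) : ((rep s : ℝ) : UnitAddCircle) = s :=
  (AddCircle.equivIco 1 0).symm_apply_apply s

theorem rep_coe (x : ℝ) : rep (x : UnitAddCircle) = Int.fract x := by
  have h : rep (x : UnitAddCircle) = Int.fract (x / 1) * 1 :=
    AddCircle.coe_equivIco_mk_apply (1 : ℝ) x
  rw [h, div_one, mul_one]

theorem rep_add (s : UnitAddCircle) (t : ℝ) :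
    rep (s + (t : UnitAddCircle)) = Int.fract (rep s + t) := by
  conv_lhs => rw [← coe_rep s]
  rw [← AddCircle.coe_add, rep_coe]

theorem measurable_rep : Measurable rep :=
  measurable_subtype_coe.comp (AddCircle.measurableEquivIco 1 0).measurable

/-- The number of integers crossed when moving from `s` by `t`. -/
noncomputable def coc (t : ℝ) (s : UnitAddCircle) : ℤ := ⌊rep s + t⌋

theorem measurable_coc (t : ℝ) : Measurable (coc t) :=
  (measurable_rep.add_const t).floor

theorem coc_zero (s : UnitAddCircle) : coc 0 s = 0 := by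
  unfold coc
  rw [add_zero, Int.floor_eq_zero_iff]
  exact ⟨rep_nonneg s, rep_lt_one s⟩

theorem coc_add (a b : ℝ) (s : UnitAddCircle) :
    coc (a + b) s = coc a (s + (b : UnitAddCircle)) + coc b s := by
  unfold coc
  rw [rep_add]
  have h : rep s + (a + b) = (Int.fract (rep s + b) + a) + (⌊rep s + b⌋ : ℤ) := by
    have := Int.floor_add_fract (rep s + b)
    linarith
  rw [h, Int.floor_add_intCast]

/-- The phase space. -/
abbrev XX : Type := UnitAddCircle × (ℤ → Bool)

/-- The fair coin. -/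
noncomputable def coin : Measure Bool :=
  (2⁻¹ : ℝ≥0∞) • Measure.dirac true + (2⁻¹ : ℝ≥0∞) • Measure.dirac false

instance : IsProbabilityMeasure coin :=
  ⟨by simp [coin, ENNReal.inv_two_add_inv_two]⟩

instance : IsProbabilityMeasure (volume : Measure UnitAddCircle) :=
  ⟨by simp [AddCircle.measure_univ]⟩

/-- The Bernoulli measure. -/
noncomputable def bern : Measure (ℤ → Bool) := Measure.infinitePi (fun _ : ℤ => coin)

instance : IsProbabilityMeasure bern := by unfold bern; infer_instance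

/-- The invariant measure. -/
noncomputable def mu : Measure XX := (volume : Measure UnitAddCircle).prod bern

instance : IsProbabilityMeasure mu := by unfold mu; infer_instance

/-- The shift by `k`. -/
def shift (k : ℤ) (w : ℤ → Bool) : ℤ → Bool := fun j => w (j + k)

theorem map_shift (k : ℤ) : Measure.map (shift k) bern = bern := by
  have h := Measure.infinitePi_map_piCongrLeft (fun _ : ℤ => coin) (Equiv.subRight k)
  have h2 : (shift k : (ℤ → Bool) → (ℤ → Bool)) =
      ⇑(MeasurableEquiv.piCongrLeft (fun _ : ℤ => Bool) (Equiv.subRight k)) := by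
    funext w j
    have := Equiv.piCongrLeft_apply_apply (fun _ : ℤ => Bool) (Equiv.subRight k) w (j + k)
    simp only [MeasurableEquiv.coe_piCongrLeft, shift]
    rw [← this]
    simp [Equiv.subRight]
  rw [bern, h2]
  exact h

/-- Flipping the coordinates `≥ 1`. -/
def flip (w : ℤ → Bool) : ℤ → Bool := fun j => if 1 ≤ j then !(w j) else w j

theorem measurable_flip : Measurable flip := by
  rw [measurable_pi_iff]
  intro j
  have h0 : Measurable fun w : ℤ → Bool => w j := measurable_pi_apply j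
  by_cases h : 1 ≤ j
  · simp only [flip, h, if_true]
    exact (measurable_of_countable Bool.not).comp h0
  · simp only [flip, h, if_false]
    exact h0

theorem flip_flip (w : ℤ → Bool) : flip (flip w) = w := by
  funext j
  by_cases h : 1 ≤ j <;> simp [flip, h]

theorem map_not : Measure.map Bool.not coin = coin := by
  have hm : Measurable Bool.not := measurable_of_countable _
  unfold coin
  rw [Measure.map_add _ _ hm, Measure.map_smul, Measure.map_smul,
    Measure.map_dirac' hm, Measure.map_dirac' hm, add_comm]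
  rfl

theorem map_flip : Measure.map flip bern = bern := by
  have h := Measure.infinitePi_map_pi (fun _ : ℤ => coin)
    (f := fun j : ℤ => if 1 ≤ j then Bool.not else id) (fun j => measurable_of_countable _)
  have h2 : (flip : (ℤ → Bool) → (ℤ → Bool)) =
      fun x i => (if 1 ≤ i then Bool.not else id) (x i) := by
    funext w j
    by_cases h : 1 ≤ j <;> simp [flip, h]
  rw [bern, h2]
  refine h.trans ?_
  congr 1
  funext j
  by_cases h : 1 ≤ j
  · simp [h, map_not]
  · simp [h]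

/-- The suspension flow. -/
noncomputable def V (t : ℝ) (x : XX) : XX := (x.1 + (t : UnitAddCircle), shift (coc t x.1) x.2)

theorem V_zero (x : XX) : V 0 x = x := by
  unfold V
  rw [coc_zero]
  ext1
  · simp
  · funext j
    simp [shift]

theorem V_add (a b : ℝ) (x : XX) : V (a + b) x = V a (V b x) := by
  unfold V
  ext1
  · simp only [AddCircle.coe_add]
    abel
  · funext j
    simp only [shift]
    rw [coc_add, add_assoc]

theorem measurable_shift_uncurry : Measurable (fun p : ℤ × (ℤ → Bool) => shift p.1 p.2) := by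
  apply measurable_from_prod_countable_right
  intro k
  rw [measurable_pi_iff]
  intro j
  exact (measurable_pi_apply (j + k) : Measurable fun w : ℤ → Bool => w (j + k))

theorem mp_V (t : ℝ) : MeasurePreserving (V t) mu mu := by
  have h := (measurePreserving_add_right (volume : Measure UnitAddCircle)
    (t : UnitAddCircle)).skew_product (μc := bern) (μd := bern)
    (g := fun s w => shift (coc t s) w)
    (measurable_shift_uncurry.comp
      (((measurable_coc t).comp measurable_fst).prodMk measurable_snd))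
    (Eventually.of_forall fun s => map_shift _)
  exact h

/-- The flip on the phase space. -/
def R (x : XX) : XX := (x.1, flip x.2)

theorem R_R (x : XX) : R (R x) = x := by
  unfold R
  rw [flip_flip]

theorem mp_R : MeasurePreserving R mu mu :=
  (MeasurePreserving.id _).prod ⟨measurable_flip, map_flip⟩

/-- The second flow. -/
noncomputable def W (t : ℝ) (x : XX) : XX := R (V t (R x))

theorem W_zero (x : XX) : W 0 x = x := by
  unfold W
  rw [V_zero, R_R]

theorem W_add (a b : ℝ) (x : XX) : W (a + b) x = W a (W b x) := by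
  unfold W
  rw [R_R, V_add]

theorem mp_W (t : ℝ) : MeasurePreserving (W t) mu mu :=
  mp_R.comp ((mp_V t).comp mp_R)

/-- The multiplicative action obtained by sampling a flow at times `log n / log 4`. -/
noncomputable def ofFlow (Φ : ℝ → XX → XX) (h0 : ∀ x, Φ 0 x = x)
    (hadd : ∀ a b x, Φ (a + b) x = Φ a (Φ b x)) (hmp : ∀ t, MeasurePreserving (Φ t) mu mu) :
    MultAction mu where
  T n :=
    { toFun := Φ (Real.logb 4 n)
      invFun := Φ (-Real.logb 4 n)
      left_inv := fun x => by rw [← hadd, neg_add_cancel, h0]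
      right_inv := fun x => by rw [← hadd, add_neg_cancel, h0]
      measurable_toFun := (hmp _).measurable
      measurable_invFun := (hmp _).measurable }
  one x := by
    change Φ (Real.logb 4 ((1 : ℕ+) : ℕ)) x = x
    simp [h0]
  mul m n x := by
    change Φ (Real.logb 4 ((m * n : ℕ+) : ℕ)) x = Φ (Real.logb 4 (m : ℕ)) (Φ (Real.logb 4 (n : ℕ)) x)
    rw [← hadd]
    congr 1
    rw [PNat.mul_coe, Nat.cast_mul, Real.logb_mul]
    · exact_mod_cast m.pos.ne'
    · exact_mod_cast n.pos.ne'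
  mp n := hmp _

/-- The first action. -/
noncomputable def actV : MultAction mu := ofFlow V V_zero V_add mp_V

/-- The second action. -/
noncomputable def actW : MultAction mu := ofFlow W W_zero W_add mp_W

/-- The set. -/
def AA : Set XX := {x | rep x.1 < 1 / 2 ∧ x.2 0 = true}

theorem measurableSet_AA : MeasurableSet AA :=
  (measurableSet_lt (measurable_rep.comp measurable_fst) measurable_const).inter
    (measurableSet_eq_fun ((measurable_pi_apply (0 : ℤ)).comp measurable_snd) measurable_const)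

theorem vol_half : (volume : Measure UnitAddCircle) {s | rep s < 1 / 2} = 2⁻¹ := by
  set B : Set UnitAddCircle := {s | rep s < 1 / 2} with hB
  have hm : MeasurableSet B := measurableSet_lt measurable_rep measurable_const
  have h1 : (fun s : UnitAddCircle => s + ((1 / 2 : ℝ) : UnitAddCircle)) ⁻¹' B = Bᶜ := by
    ext s
    simp only [mem_preimage, mem_compl_iff, hB, mem_ofPred_eq, not_lt]
    rw [rep_add]
    have h0 := rep_nonneg s
    have h1 := rep_lt_one s
    constructor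
    · intro h
      by_contra hc
      push Not at hc
      rw [Int.fract_eq_self.2 ⟨by linarith, by linarith⟩] at h
      linarith
    · intro h
      have : Int.fract (rep s + 1 / 2) = rep s - 1 / 2 := by
        rw [Int.fract_eq_iff]
        exact ⟨by linarith, by linarith, 1, by push_cast; ring⟩
      rw [this]
      linarith
  have h2 : (volume : Measure UnitAddCircle) Bᶜ = volume B := by
    rw [← h1]
    exact (measurePreserving_add_right (volume : Measure UnitAddCircle)
      ((1 / 2 : ℝ) : UnitAddCircle)).measure_preimage hm.nullMeasurableSet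
  have h3 := measure_add_measure_compl (μ := (volume : Measure UnitAddCircle)) hm
  rw [h2, measure_univ, ← two_mul] at h3
  exact ENNReal.eq_inv_of_mul_eq_one_left (by rw [mul_comm]; exact h3)

theorem bern_half : bern {w | w 0 = true} = 2⁻¹ := by
  have h := (measurePreserving_eval_infinitePi (fun _ : ℤ => coin) 0).measure_preimage
    (measurableSet_singleton true).nullMeasurableSet
  have h2 : coin {true} = 2⁻¹ := by simp [coin]
  rw [h2] at h
  exact h

theorem mu_AA : mu AA = 1 / 4 := by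
  have h : AA = {s | rep s < 1 / 2} ×ˢ {w : ℤ → Bool | w 0 = true} := by
    ext x
    simp [AA]
  rw [h, mu, Measure.prod_prod, vol_half, bern_half, one_div, ← ENNReal.mul_inv (by simp) (by simp)]
  norm_num

theorem mem_V_iff (t : ℝ) (x : XX) :
    V t x ∈ AA ↔ Int.fract (rep x.1 + t) < 1 / 2 ∧ x.2 ⌊rep x.1 + t⌋ = true := by
  simp only [AA, V, mem_ofPred_eq, rep_add, shift, coc, zero_add]

theorem mem_R_iff (x : XX) : R x ∈ AA ↔ x ∈ AA := by
  simp [AA, R, flip]

theorem mem_W_iff (t : ℝ) (x : XX) (h : 1 ≤ rep x.1 + t) :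
    W t x ∈ AA ↔ Int.fract (rep x.1 + t) < 1 / 2 ∧ x.2 ⌊rep x.1 + t⌋ = false := by
  unfold W
  rw [mem_R_iff, mem_V_iff]
  have : (1 : ℤ) ≤ ⌊rep x.1 + t⌋ := Int.le_floor.2 (by simpa using h)
  simp [R, flip, this]

/-- The key disjointness. -/
theorem disj (p q : ℕ+) (h4 : 4 ≤ (p : ℕ)) (hpq : (p : ℕ) ≤ q) (hq : (q : ℕ) ≤ 2 * p) (x : XX)
    (hV : actV.T p x ∈ AA) (hW : actW.T q x ∈ AA) : False := by
  change V (Real.logb 4 p) x ∈ AA at hV
  change W (Real.logb 4 q) x ∈ AA at hW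
  have hp0 : (0 : ℝ) < (p : ℕ) := by exact_mod_cast p.pos
  have hq0 : (0 : ℝ) < (q : ℕ) := by exact_mod_cast q.pos
  have ha : 1 ≤ Real.logb 4 (p : ℕ) := by
    rw [Real.le_logb_iff_rpow_le (by norm_num) hp0, Real.rpow_one]
    exact_mod_cast h4
  have hab : Real.logb 4 (p : ℕ) ≤ Real.logb 4 (q : ℕ) :=
    Real.logb_le_logb_of_le (by norm_num) hp0 (by exact_mod_cast hpq)
  have h2 : Real.logb 4 2 = 1 / 2 := by
    have : (2 : ℝ) = 4 ^ (1 / 2 : ℝ) := by
      rw [show (4 : ℝ) = 2 ^ (2 : ℝ) by norm_num, ← Real.rpow_mul (by norm_num)]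
      norm_num
    conv_lhs => rw [this]
    rw [Real.logb_rpow (by norm_num) (by norm_num)]
  have hba : Real.logb 4 (q : ℕ) ≤ 1 / 2 + Real.logb 4 (p : ℕ) := by
    rw [← h2, ← Real.logb_mul (by norm_num) hp0.ne']
    exact Real.logb_le_logb_of_le (by norm_num) hq0 (by exact_mod_cast hq)
  set a := Real.logb 4 (p : ℕ)
  set b := Real.logb 4 (q : ℕ)
  have hr := rep_nonneg x.1
  rw [mem_V_iff] at hV
  rw [mem_W_iff _ _ (by linarith)] at hW
  have hfl : ⌊rep x.1 + a⌋ = ⌊rep x.1 + b⌋ := by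
    have e1 := Int.floor_add_fract (rep x.1 + a)
    have e2 := Int.floor_add_fract (rep x.1 + b)
    have f1 := Int.fract_nonneg (rep x.1 + a)
    have f2 := Int.fract_nonneg (rep x.1 + b)
    apply le_antisymm
    · exact Int.floor_le_floor (by linarith)
    · by_contra hc
      push Not at hc
      have hc' : ((⌊rep x.1 + a⌋ : ℤ) : ℝ) + 1 ≤ ((⌊rep x.1 + b⌋ : ℤ) : ℝ) := by
        exact_mod_cast hc
      linarith [hV.1, hW.1]
  rw [hfl, hW.2] at hV
  exact Bool.false_ne_true hV.2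

theorem not_Q2At {ℓ : ℕ} (hℓ : 2 ≤ ℓ) : ¬ Q2At ℓ := by
  intro h
  set T : Fin (ℓ + 1) → MultAction mu := fun j => if (j : ℕ) = 2 then actW else actV with hT
  have hpos := h XX mu T AA measurableSet_AA (by rw [mu_AA]; simp)
  have hempty : ∀ m n : ℕ+, 4 ≤ (m : ℕ) + n →
      (⋂ j : Fin (ℓ + 1), (T j).T (lin m n j) ⁻¹' AA) = ∅ := by
    intro m n hmn
    rw [eq_empty_iff_forall_notMem]
    intro x hx
    rw [mem_iInter] at hx
    have h1 := hx ⟨1, by omega⟩
    have h2 := hx ⟨2, by omega⟩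
    simp only [hT, mem_preimage, OfNat.one_ne_ofNat, if_false, if_true] at h1 h2
    have e1 : ((lin m n 1 : ℕ+) : ℕ) = m + n := by simp [lin]
    have e2 : ((lin m n 2 : ℕ+) : ℕ) = m + 2 * n := by simp [lin]
    exact disj (lin m n 1) (lin m n 2) (by rw [e1]; exact hmn) (by rw [e1, e2]; omega)
      (by rw [e1, e2]; omega) x h1 h2
  have hle : ∀ N : ℕ+, avg T AA N ≤ 9 / ((N : ℕ) : ℝ≥0∞) ^ 2 := by
    intro N
    unfold avg
    apply ENNReal.div_le_div_right
    rw [← Finset.sum_product']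
    calc ∑ p ∈ Finset.Icc 1 N ×ˢ Finset.Icc 1 N,
          mu (⋂ j : Fin (ℓ + 1), (T j).T (lin p.1 p.2 j) ⁻¹' AA)
        ≤ ∑ p ∈ Finset.Icc (1 : ℕ+) 3 ×ˢ Finset.Icc (1 : ℕ+) 3,
          mu (⋂ j : Fin (ℓ + 1), (T j).T (lin p.1 p.2 j) ⁻¹' AA) := by
          apply Finset.sum_le_sum_of_ne_zero
          intro p _ hp
          by_contra hc
          apply hp
          rw [hempty p.1 p.2, measure_empty]
          by_contra h4
          apply hc
          rw [Finset.mem_product, Finset.mem_Icc, Finset.mem_Icc]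
          have a1 := p.1.pos
          have a2 := p.2.pos
          refine ⟨⟨one_le, ?_⟩, ⟨one_le, ?_⟩⟩
          · rw [← PNat.coe_le_coe]
            change (p.1 : ℕ) ≤ 3
            omega
          · rw [← PNat.coe_le_coe]
            change (p.2 : ℕ) ≤ 3
            omega
      _ ≤ ∑ p ∈ Finset.Icc (1 : ℕ+) 3 ×ˢ Finset.Icc (1 : ℕ+) 3, (1 : ℝ≥0∞) :=
          Finset.sum_le_sum fun p _ => prob_le_one
      _ = 9 := by
          rw [Finset.sum_const, Finset.card_product]
          have : (Finset.Icc (1 : ℕ+) 3).card = 3 := by decide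
          rw [this]
          norm_num
  have ht : Tendsto (fun N : ℕ+ => (9 : ℝ≥0∞) / ((N : ℕ) : ℝ≥0∞) ^ 2) atTop (𝓝 0) := by
    have h1 : Tendsto (fun N : ℕ+ => ((N : ℕ) : ℝ≥0∞)) atTop (𝓝 ⊤) :=
      ENNReal.tendsto_nat_nhds_top.comp tendsto_PNat_val_atTop_atTop
    have h2 : Tendsto (fun N : ℕ+ => ((N : ℕ) : ℝ≥0∞) ^ 2) atTop (𝓝 ⊤) := by
      have := ENNReal.Tendsto.pow (n := 2) h1
      simpa using this
    have h3 := ENNReal.Tendsto.const_div (a := 9) h2 (Or.inr (by norm_num))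
    simpa using h3
  have hlim : Tendsto (avg T AA) atTop (𝓝 0) :=
    tendsto_of_tendsto_of_tendsto_of_le_of_le tendsto_const_nhds ht (fun _ => zero_le) hle
  rw [hlim.liminf_eq] at hpos
  exact lt_irrefl _ hpos

/-! ### Positivity for `ℓ ≤ 1` -/

section positive

variable {X : Type} [MeasurableSpace X] {μ : Measure X}

theorem key {ι κ : Type} (P : Finset ι) (Q : Finset κ) (E : ι → Set X) (F : κ → Set X)
    (hE : ∀ i, MeasurableSet (E i)) (hF : ∀ k, MeasurableSet (F k)) (G : Set X)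
    (hG : MeasurableSet G) (a b : ℕ)
    (ha : ∀ x ∈ G, ∃ P' ⊆ P, a ≤ P'.card ∧ ∀ i ∈ P', x ∈ E i)
    (hb : ∀ x ∈ G, ∃ Q' ⊆ Q, b ≤ Q'.card ∧ ∀ k ∈ Q', x ∈ F k) :
    (a : ℝ≥0∞) * b * μ G ≤ ∑ i ∈ P, ∑ k ∈ Q, μ (E i ∩ F k) := by
  classical
  calc (a : ℝ≥0∞) * b * μ G = ∫⁻ _ in G, (a : ℝ≥0∞) * b ∂μ := by rw [setLIntegral_const]
    _ ≤ ∫⁻ x in G, ∑ i ∈ P, ∑ k ∈ Q, (E i ∩ F k).indicator 1 x ∂μ := by
        apply setLIntegral_mono' hG
        intro x hx
        obtain ⟨P', hP', hPa, hPE⟩ := ha x hx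
        obtain ⟨Q', hQ', hQb, hQF⟩ := hb x hx
        calc (a : ℝ≥0∞) * b ≤ (P'.card : ℝ≥0∞) * Q'.card := by
              gcongr
          _ = ∑ i ∈ P', ∑ k ∈ Q', (1 : ℝ≥0∞) := by simp
          _ = ∑ i ∈ P', ∑ k ∈ Q', (E i ∩ F k).indicator 1 x := by
              refine Finset.sum_congr rfl fun i hi => Finset.sum_congr rfl fun k hk => ?_
              have hx' : x ∈ E i ∩ F k := ⟨hPE i hi, hQF k hk⟩
              rw [indicator_of_mem hx']
              rfl
          _ ≤ ∑ i ∈ P', ∑ k ∈ Q, (E i ∩ F k).indicator 1 x :=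
              Finset.sum_le_sum fun i _ => Finset.sum_le_sum_of_subset hQ'
          _ ≤ ∑ i ∈ P, ∑ k ∈ Q, (E i ∩ F k).indicator 1 x :=
              Finset.sum_le_sum_of_subset hP'
    _ ≤ ∫⁻ x, ∑ i ∈ P, ∑ k ∈ Q, (E i ∩ F k).indicator 1 x ∂μ := setLIntegral_le_lintegral _ _
    _ = ∑ i ∈ P, ∑ k ∈ Q, μ (E i ∩ F k) := by
        have hm : ∀ i k, Measurable ((E i ∩ F k).indicator (1 : X → ℝ≥0∞)) := fun i k =>
          measurable_one.indicator ((hE i).inter (hF k))
        rw [lintegral_finsetSum _ fun i _ => Finset.measurable_fun_sum _ fun k _ => hm i k]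
        refine Finset.sum_congr rfl fun i _ => ?_
        rw [lintegral_finsetSum _ fun k _ => hm i k]
        refine Finset.sum_congr rfl fun k _ => ?_
        rw [lintegral_indicator_one ((hE i).inter (hF k))]

/-- Points whose orbit meets `A` at some time `≤ D`. -/
def AD (T : MultAction μ) (A : Set X) (D : ℕ+) : Set X := {x | ∃ d ≤ D, T.T d x ∈ A}

/-- Points whose orbit meets `A`. -/
def Sat (T : MultAction μ) (A : Set X) : Set X := {x | ∃ d, T.T d x ∈ A}

theorem measurableSet_AD (T : MultAction μ) {A : Set X} (hA : MeasurableSet A) (D : ℕ+) :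
    MeasurableSet (AD T A D) := by
  have : AD T A D = ⋃ d : ℕ+, ⋃ (_ : d ≤ D), T.T d ⁻¹' A := by
    ext x
    simp [AD]
  rw [this]
  exact MeasurableSet.iUnion fun d => MeasurableSet.iUnion fun _ => (T.T d).measurable hA

theorem measurableSet_Sat (T : MultAction μ) {A : Set X} (hA : MeasurableSet A) :
    MeasurableSet (Sat T A) := by
  have : Sat T A = ⋃ d : ℕ+, T.T d ⁻¹' A := by
    ext x
    simp [Sat]
  rw [this]
  exact MeasurableSet.iUnion fun d => (T.T d).measurable hA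

theorem sub_Sat (T : MultAction μ) (A : Set X) : A ⊆ Sat T A := fun x hx =>
  ⟨1, by rw [T.one]; exact hx⟩

theorem sat_diff [IsProbabilityMeasure μ] (T : MultAction μ) {A : Set X} (hA : MeasurableSet A)
    (d : ℕ+) : μ (Sat T A \ T.T d ⁻¹' Sat T A) = 0 := by
  have hm := measurableSet_Sat T hA
  have hsub : T.T d ⁻¹' Sat T A ⊆ Sat T A := by
    rintro x ⟨e, he⟩
    exact ⟨e * d, by rw [T.mul]; exact he⟩
  rw [measure_sdiff hsub ((T.T d).measurable hm).nullMeasurableSet (measure_ne_top _ _),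
    (T.mp d).measure_preimage hm.nullMeasurableSet, tsub_self]

theorem exists_D [IsProbabilityMeasure μ] (T : MultAction μ) {A : Set X} (hA : MeasurableSet A)
    {ε : ℝ≥0∞} (hε : 0 < ε) : ∃ D₀ : ℕ+, ∀ D ≥ D₀, μ (Sat T A \ AD T A D) < ε := by
  have h := tendsto_measure_iInter_atTop (μ := μ) (s := fun D : ℕ+ => Sat T A \ AD T A D)
    (fun D => ((measurableSet_Sat T hA).diff (measurableSet_AD T hA D)).nullMeasurableSet)
    (fun D D' h => sdiff_subset_sdiff_right fun x ⟨d, hd, hx⟩ => ⟨d, hd.trans h, hx⟩)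
    ⟨1, measure_ne_top _ _⟩
  have he : (⋂ D : ℕ+, Sat T A \ AD T A D) = ∅ := by
    rw [eq_empty_iff_forall_notMem]
    intro x hx
    rw [mem_iInter] at hx
    obtain ⟨d, hd⟩ := (hx 1).1
    exact (hx d).2 ⟨d, le_rfl, hd⟩
  rw [he, measure_empty] at h
  have := h.eventually (gt_mem_nhds hε)
  obtain ⟨D₀, hD₀⟩ := eventually_atTop.1 this
  exact ⟨D₀, hD₀⟩

open Classical in
/-- Points of `A` that are bad at scale `M`. -/
def Bad (T : MultAction μ) (A : Set X) (D M : ℕ+) : Set X :=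
  {x | x ∈ A ∧ (M : ℕ) ≤ 2 * ((Finset.Icc 1 M).filter fun m => T.T m x ∉ AD T A D).card}

open Classical in
theorem measurableSet_Bad (T : MultAction μ) {A : Set X} (hA : MeasurableSet A) (D M : ℕ+) :
    MeasurableSet (Bad T A D M) := by
  have h1 : Measurable fun x =>
      ((Finset.Icc 1 M).filter fun m => T.T m x ∉ AD T A D).card := by
    have : (fun x => ((Finset.Icc 1 M).filter fun m => T.T m x ∉ AD T A D).card) =
        fun x => ∑ m ∈ Finset.Icc 1 M, if T.T m x ∉ AD T A D then 1 else 0 := by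
      funext x
      rw [Finset.card_filter]
    rw [this]
    refine Finset.measurable_fun_sum _ fun m _ => ?_
    refine Measurable.ite ?_ measurable_const measurable_const
    exact ((T.T m).measurable (measurableSet_AD T hA D)).compl
  exact hA.inter (measurableSet_le measurable_const (h1.const_mul 2))

open Classical in
theorem measure_Bad [IsProbabilityMeasure μ] (T : MultAction μ) {A : Set X}
    (hA : MeasurableSet A) (D M : ℕ+) : μ (Bad T A D M) ≤ 2 * μ (Sat T A \ AD T A D) := by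
  have hmD := measurableSet_AD T hA D
  have hmS := measurableSet_Sat T hA
  have h1 := key (μ := μ) (Finset.Icc (1 : ℕ+) M) ({()} : Finset Unit)
    (fun m => A ∩ T.T m ⁻¹' (AD T A D)ᶜ) (fun _ => univ)
    (fun m => hA.inter ((T.T m).measurable hmD.compl)) (fun _ => MeasurableSet.univ)
    (Bad T A D M) (measurableSet_Bad T hA D M) (((M : ℕ) + 1) / 2) 1
    (fun x hx => ⟨_, Finset.filter_subset (fun m => T.T m x ∉ AD T A D) _, by
        have := hx.2
        omega, fun m hm => ⟨hx.1, (Finset.mem_filter.1 hm).2⟩⟩)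
    (fun x _ => ⟨{()}, le_rfl, by simp, fun _ _ => mem_univ _⟩)
  have h2 : ∀ m ∈ Finset.Icc (1 : ℕ+) M, ∑ k ∈ ({()} : Finset Unit),
      μ ((A ∩ T.T m ⁻¹' (AD T A D)ᶜ) ∩ univ) ≤ μ (Sat T A \ AD T A D) := by
    intro m _
    rw [Finset.sum_const, Finset.card_singleton, one_smul, inter_univ]
    have hsub : A ∩ T.T m ⁻¹' (AD T A D)ᶜ ⊆
        (Sat T A \ T.T m ⁻¹' Sat T A) ∪ T.T m ⁻¹' (Sat T A \ AD T A D) := by
      rintro x ⟨hx1, hx2⟩
      by_cases hx : T.T m x ∈ Sat T A
      · exact Or.inr ⟨hx, hx2⟩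
      · exact Or.inl ⟨sub_Sat T A hx1, hx⟩
    refine (measure_mono hsub).trans ((measure_union_le _ _).trans ?_)
    rw [sat_diff T hA, zero_add, (T.mp m).measure_preimage (hmS.diff hmD).nullMeasurableSet]
  have h3 := h1.trans (Finset.sum_le_sum h2)
  rw [Finset.sum_const, PNat.card_Icc] at h3
  have h4 : ((M : ℕ) + 1 - ((1 : ℕ+) : ℕ)) = (M : ℕ) := by simp
  rw [h4, nsmul_eq_mul, Nat.cast_one, mul_one] at h3
  have h5 : ((M : ℕ) : ℝ≥0∞) ≤ 2 * ((((M : ℕ) + 1) / 2 : ℕ) : ℝ≥0∞) := by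
    have : (M : ℕ) ≤ 2 * (((M : ℕ) + 1) / 2) := by omega
    exact_mod_cast this
  have h6 : ((M : ℕ) : ℝ≥0∞) * μ (Bad T A D M) ≤
      ((M : ℕ) : ℝ≥0∞) * (2 * μ (Sat T A \ AD T A D)) := by
    calc ((M : ℕ) : ℝ≥0∞) * μ (Bad T A D M)
        ≤ 2 * ((((M : ℕ) + 1) / 2 : ℕ) : ℝ≥0∞) * μ (Bad T A D M) := by gcongr
      _ = 2 * (((((M : ℕ) + 1) / 2 : ℕ) : ℝ≥0∞) * μ (Bad T A D M)) := by rw [mul_assoc]
      _ ≤ 2 * (((M : ℕ) : ℝ≥0∞) * μ (Sat T A \ AD T A D)) := by gcongr
      _ = _ := by ring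
  have hM0 : ((M : ℕ) : ℝ≥0∞) ≠ 0 := by exact_mod_cast M.pos.ne'
  exact (ENNReal.mul_le_mul_iff_right hM0 (ENNReal.natCast_ne_top _)).1 h6

open Classical in
/-- The visits to `A` up to time `N`. -/
noncomputable def vis (T : MultAction μ) (A : Set X) (N : ℕ+) (x : X) : Finset ℕ+ :=
  (Finset.Icc 1 N).filter fun m => T.T m x ∈ A

open Classical in
theorem count (T : MultAction μ) (A : Set X) (D M N : ℕ+) (h : D * M ≤ N) (x : X) :
    ((Finset.Icc 1 M).filter fun m => T.T m x ∈ AD T A D).card ≤ D * (vis T A N x).card := by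
  set s := (Finset.Icc 1 M).filter fun m => T.T m x ∈ AD T A D with hs
  have hex : ∀ m : ℕ+, ∃ d : ℕ+, d ≤ D ∧ (m ∈ s → T.T d (T.T m x) ∈ A) := by
    intro m
    by_cases hm : m ∈ s
    · obtain ⟨d, hd, hx⟩ := (Finset.mem_filter.1 hm).2
      exact ⟨d, hd, fun _ => hx⟩
    · exact ⟨1, one_le, fun h => absurd h hm⟩
  choose d hdD hdA using hex
  have h1 := Finset.card_le_mul_card_image (f := fun m => d m * m) s (D : ℕ) (by
    intro a _
    have : (s.filter fun m => d m * m = a).card ≤ (Finset.Icc (1 : ℕ+) D).card := by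
      apply Finset.card_le_card_of_injOn d
      · intro m _
        exact Finset.mem_coe.2 (Finset.mem_Icc.2 ⟨one_le, hdD m⟩)
      · intro m hm m' hm' hdd
        have e1 := (Finset.mem_filter.1 (Finset.mem_coe.1 hm)).2
        have e2 := (Finset.mem_filter.1 (Finset.mem_coe.1 hm')).2
        rw [← e2, hdd] at e1
        exact mul_left_cancel e1
    refine this.trans ?_
    rw [PNat.card_Icc]
    simp)
  refine h1.trans (Nat.mul_le_mul_left _ (Finset.card_le_card ?_))
  intro a ha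
  obtain ⟨m, hm, rfl⟩ := Finset.mem_image.1 ha
  have hmM := (Finset.mem_Icc.1 (Finset.mem_filter.1 hm).1).2
  refine Finset.mem_filter.2 ⟨Finset.mem_Icc.2 ⟨one_le, ?_⟩, ?_⟩
  · exact (mul_le_mul' (hdD m) hmM).trans h
  · rw [T.mul]
    exact hdA m hm

open Classical in
theorem many (T : MultAction μ) (A : Set X) (D M N : ℕ+) (h : D * M ≤ N) (x : X) (hx : x ∈ A)
    (hb : x ∉ Bad T A D M) : (M : ℕ) ≤ 2 * (D * (vis T A N x).card) := by
  have h1 := count T A D M N h x
  have h2 : ¬ (M : ℕ) ≤ 2 * ((Finset.Icc 1 M).filter fun m => T.T m x ∉ AD T A D).card :=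
    fun hc => hb ⟨hx, hc⟩
  have h3 := Finset.card_filter_add_card_filter_not (s := Finset.Icc 1 M)
    (fun m => T.T m x ∈ AD T A D)
  rw [PNat.card_Icc] at h3
  have h4 : ((M : ℕ) + 1 - ((1 : ℕ+) : ℕ)) = (M : ℕ) := by simp
  rw [h4] at h3
  omega

theorem inner_sum (g : ℕ+ → ℝ≥0∞) (m N₁ N : ℕ+) (hm : m ≤ N₁) :
    ∑ k ∈ Finset.Ioc N₁ N, g k ≤ ∑ n ∈ Finset.Icc 1 N, g (m + n) := by
  classical
  have h1 : ∑ n ∈ Finset.Icc 1 N, g (m + n) = ∑ k ∈ (Finset.Icc 1 N).image (fun n => m + n), g k :=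
    (Finset.sum_image fun a _ b _ h => add_left_cancel h).symm
  rw [h1]
  apply Finset.sum_le_sum_of_subset
  intro k hk
  obtain ⟨hk1, hk2⟩ := Finset.mem_Ioc.1 hk
  have hmk : m < k := lt_of_le_of_lt hm hk1
  have e := PNat.add_sub_of_lt hmk
  refine Finset.mem_image.2 ⟨k - m, Finset.mem_Icc.2 ⟨one_le, ?_⟩, e⟩
  have : k - m ≤ k := by
    rw [← PNat.coe_le_coe]
    have e' : (m : ℕ) + ((k - m : ℕ+) : ℕ) = k := by exact_mod_cast congrArg PNat.val e
    omega
  exact this.trans hk2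

end positive

theorem Q2At_one : Q2At 1 := by
  classical
  intro X _ _ μ _ T A hA hpos
  set T0 := T 0 with hT0
  set T1 := T 1 with hT1
  have hε : 0 < μ A / 8 := ENNReal.div_pos hpos.ne' (by norm_num)
  obtain ⟨D₀, hD₀⟩ := exists_D T0 hA hε
  obtain ⟨D₁, hD₁⟩ := exists_D T1 hA hε
  set D := max D₀ D₁ with hD
  have hδ0 := (hD₀ D (le_max_left _ _)).le
  have hδ1 := (hD₁ D (le_max_right _ _)).le
  have hDpos := D.pos
  have hmain : ∀ N : ℕ+, 8 * D ^ 4 ≤ N →
      μ A / 2 / (128 * ((D : ℕ) : ℝ≥0∞) ^ 6) ≤ avg T A N := by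
    intro N hN
    have hNK : 8 * (D : ℕ) ^ 4 ≤ N := by exact_mod_cast hN
    have hKpos : 0 < 8 * (D : ℕ) ^ 4 := by positivity
    set r : ℕ := N / (8 * (D : ℕ) ^ 4) with hr
    have hr1 : 1 ≤ r := (Nat.one_le_div_iff hKpos).2 hNK
    have hrN : 8 * (D : ℕ) ^ 4 * r ≤ N := Nat.mul_div_le _ _
    have hrN2 : (N : ℕ) < 8 * (D : ℕ) ^ 4 * (r + 1) := by
      rw [mul_comm]
      exact (Nat.div_lt_iff_lt_mul hKpos).1 (Nat.lt_succ_self _)
    let r' : ℕ+ := ⟨r, hr1⟩
    have hr' : (r' : ℕ) = r := rfl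
    set MT : ℕ+ := 2 * D * r' with hMT
    set MS : ℕ+ := 8 * D ^ 3 * r' with hMS
    set N₁ : ℕ+ := D * MT with hN₁
    have cMT : (MT : ℕ) = 2 * D * r := by simp [hMT, hr']
    have cMS : (MS : ℕ) = 8 * (D : ℕ) ^ 3 * r := by simp [hMS, hr']
    have cN₁ : (N₁ : ℕ) = 2 * (D : ℕ) ^ 2 * r := by
      rw [hN₁, PNat.mul_coe, cMT]
      ring
    have hN₁N : N₁ ≤ N := by
      rw [← PNat.coe_le_coe, cN₁]
      refine le_trans ?_ hrN
      have : (D : ℕ) ^ 2 ≤ (D : ℕ) ^ 4 := Nat.pow_le_pow_right hDpos (by norm_num)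
      nlinarith
    have hMSN : D * MS ≤ N := by
      rw [← PNat.coe_le_coe, PNat.mul_coe, cMS]
      refine le_trans (le_of_eq ?_) hrN
      ring
    set B0 := Bad T0 A D MT with hB0
    set B1 := Bad T1 A D MS with hB1
    set G := A \ (B0 ∪ B1) with hG
    have hmB0 := measurableSet_Bad T0 hA D MT
    have hmB1 := measurableSet_Bad T1 hA D MS
    have hGm : MeasurableSet G := hA.diff (hmB0.union hmB1)
    have hμG : μ A / 2 ≤ μ G := by
      have h1 : μ A ≤ μ G + (μ B0 + μ B1) := by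
        calc μ A ≤ μ (G ∪ (B0 ∪ B1)) := measure_mono (by
              intro x hx
              by_cases hxx : x ∈ B0 ∪ B1
              · exact Or.inr hxx
              · exact Or.inl ⟨hx, hxx⟩)
          _ ≤ μ G + μ (B0 ∪ B1) := measure_union_le _ _
          _ ≤ μ G + (μ B0 + μ B1) := by gcongr; exact measure_union_le _ _
      have h2 : μ B0 ≤ 2 * (μ A / 8) := (measure_Bad T0 hA D MT).trans (by gcongr)
      have h3 : μ B1 ≤ 2 * (μ A / 8) := (measure_Bad T1 hA D MS).trans (by gcongr)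
      have h4 : 2 * (μ A / 8) + 2 * (μ A / 8) = μ A / 2 := by
        rw [← two_mul, ← mul_assoc, ← mul_div_assoc]
        have : (2 : ℝ≥0∞) * 2 * μ A / 8 = μ A * (4 / 8) := by
          rw [mul_comm (2 * 2 : ℝ≥0∞), mul_div_assoc]
          norm_num
        rw [this, div_eq_mul_inv (μ A) 2]
        congr 1
        rw [show (8 : ℝ≥0∞) = 4 * 2 by norm_num, div_eq_mul_inv,
          ENNReal.mul_inv (by norm_num) (by norm_num), ← mul_assoc,
          ENNReal.mul_inv_cancel (by norm_num) (by norm_num), one_mul]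
      have h5 : μ A / 2 + μ A / 2 ≤ μ G + μ A / 2 := by
        rw [ENNReal.add_halves]
        refine h1.trans ?_
        rw [← h4]
        gcongr
      exact (ENNReal.add_le_add_iff_right
        (ENNReal.div_ne_top (measure_ne_top _ _) (by norm_num))).1 h5
    have hkey := key (μ := μ) (Finset.Icc (1 : ℕ+) N₁) (Finset.Ioc N₁ N)
      (fun m => T0.T m ⁻¹' A) (fun k => T1.T k ⁻¹' A) (fun m => (T0.T m).measurable hA)
      (fun k => (T1.T k).measurable hA) G hGm r (2 * (D : ℕ) ^ 2 * r)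
      (fun x hx => by
        have h1 := many T0 A D MT N₁ le_rfl x hx.1 (fun h => hx.2 (Or.inl h))
        refine ⟨vis T0 A N₁ x, Finset.filter_subset _ _, ?_, fun m hm =>
          (Finset.mem_filter.1 hm).2⟩
        rw [cMT] at h1
        have h2 : 2 * (D : ℕ) * r ≤ 2 * (D : ℕ) * (vis T0 A N₁ x).card := by
          rw [mul_assoc 2 (D : ℕ) (vis T0 A N₁ x).card]
          exact h1
        exact Nat.le_of_mul_le_mul_left h2 (by positivity))
      (fun x hx => by
        have h1 := many T1 A D MS N hMSN x hx.1 (fun h => hx.2 (Or.inr h))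
        refine ⟨(vis T1 A N x).filter fun k => N₁ < k, ?_, ?_, ?_⟩
        · intro k hk
          obtain ⟨hk1, hk2⟩ := Finset.mem_filter.1 hk
          exact Finset.mem_Ioc.2 ⟨hk2, (Finset.mem_Icc.1 (Finset.mem_filter.1 hk1).1).2⟩
        · rw [cMS] at h1
          have h2 : 2 * (D : ℕ) * (4 * (D : ℕ) ^ 2 * r) ≤ 2 * (D : ℕ) * (vis T1 A N x).card := by
            rw [mul_assoc 2 (D : ℕ) (vis T1 A N x).card]
            refine le_trans (le_of_eq ?_) h1
            ring
          have h3 := Nat.le_of_mul_le_mul_left h2 (by positivity)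
          have h4 := Finset.card_filter_add_card_filter_not (s := vis T1 A N x)
            (fun k => N₁ < k)
          have h5 : ((vis T1 A N x).filter fun k => ¬ N₁ < k).card ≤ (N₁ : ℕ) := by
            calc ((vis T1 A N x).filter fun k => ¬ N₁ < k).card
                ≤ (Finset.Icc (1 : ℕ+) N₁).card := Finset.card_le_card (by
                  intro k hk
                  have := (Finset.mem_filter.1 hk).2
                  push Not at this
                  exact Finset.mem_Icc.2 ⟨one_le, this⟩)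
              _ = N₁ := by
                  rw [PNat.card_Icc]
                  simp
          rw [cN₁] at h5
          have h6 : 4 * (D : ℕ) ^ 2 * r = 2 * (D : ℕ) ^ 2 * r + 2 * (D : ℕ) ^ 2 * r := by ring
          omega
        · intro k hk
          exact (Finset.mem_filter.1 (Finset.mem_filter.1 hk).1).2)
    have hsum : ∑ m ∈ Finset.Icc 1 N₁, ∑ k ∈ Finset.Ioc N₁ N,
        μ (T0.T m ⁻¹' A ∩ T1.T k ⁻¹' A) ≤
        ∑ m ∈ Finset.Icc 1 N, ∑ n ∈ Finset.Icc 1 N,
          μ (⋂ j : Fin (1 + 1), (T j).T (lin m n j) ⁻¹' A) := by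
      have e : ∀ m n : ℕ+, (⋂ j : Fin (1 + 1), (T j).T (lin m n j) ⁻¹' A) =
          T0.T m ⁻¹' A ∩ T1.T (m + n) ⁻¹' A := by
        intro m n
        have e0 : lin m n ((0 : Fin (1 + 1)) : ℕ) = m := PNat.eq (by simp [lin])
        have e1 : lin m n ((1 : Fin (1 + 1)) : ℕ) = m + n := PNat.eq (by simp [lin])
        ext x
        rw [mem_iInter, Fin.forall_fin_two, e0, e1]
        rfl
      simp only [e]
      calc ∑ m ∈ Finset.Icc 1 N₁, ∑ k ∈ Finset.Ioc N₁ N, μ (T0.T m ⁻¹' A ∩ T1.T k ⁻¹' A)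
          ≤ ∑ m ∈ Finset.Icc 1 N₁, ∑ n ∈ Finset.Icc 1 N,
            μ (T0.T m ⁻¹' A ∩ T1.T (m + n) ⁻¹' A) := by
            apply Finset.sum_le_sum
            intro m hm
            exact inner_sum (fun k => μ (T0.T m ⁻¹' A ∩ T1.T k ⁻¹' A)) m N₁ N
              (Finset.mem_Icc.1 hm).2
        _ ≤ _ := by
            apply Finset.sum_le_sum_of_subset
            exact Finset.Icc_subset_Icc_right hN₁N
    unfold avg
    have hNpos : (((N : ℕ) : ℝ≥0∞) ^ 2) ≠ 0 := by
      have := N.pos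
      positivity
    rw [ENNReal.le_div_iff_mul_le (Or.inl hNpos)
      (Or.inl (ENNReal.pow_ne_top (ENNReal.natCast_ne_top _)))]
    refine le_trans ?_ (hkey.trans hsum)
    have hnat : (N : ℕ) ^ 2 ≤ 128 * (D : ℕ) ^ 6 * (r * (2 * (D : ℕ) ^ 2 * r)) := by
      have h1 : (N : ℕ) ≤ 16 * (D : ℕ) ^ 4 * r := by
        refine hrN2.le.trans ?_
        have : 8 * (D : ℕ) ^ 4 * 1 ≤ 8 * (D : ℕ) ^ 4 * r := Nat.mul_le_mul_left _ hr1
        linarith
      calc (N : ℕ) ^ 2 ≤ (16 * (D : ℕ) ^ 4 * r) ^ 2 := Nat.pow_le_pow_left h1 2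
        _ = _ := by ring
    have hD6 : (128 * ((D : ℕ) : ℝ≥0∞) ^ 6) ≠ 0 := by positivity
    have hD6' : (128 * ((D : ℕ) : ℝ≥0∞) ^ 6) ≠ ⊤ :=
      ENNReal.mul_ne_top (by norm_num) (ENNReal.pow_ne_top (ENNReal.natCast_ne_top _))
    calc μ A / 2 / (128 * ((D : ℕ) : ℝ≥0∞) ^ 6) * ((N : ℕ) : ℝ≥0∞) ^ 2
        ≤ μ G / (128 * ((D : ℕ) : ℝ≥0∞) ^ 6) *
          (128 * ((D : ℕ) : ℝ≥0∞) ^ 6 * ((r : ℝ≥0∞) * (2 * (D : ℕ) ^ 2 * r : ℕ))) := by
          gcongr
          exact_mod_cast hnat
      _ = (μ G / (128 * ((D : ℕ) : ℝ≥0∞) ^ 6) * (128 * ((D : ℕ) : ℝ≥0∞) ^ 6)) *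
          ((r : ℝ≥0∞) * (2 * (D : ℕ) ^ 2 * r : ℕ)) :=
            (mul_assoc (μ G / (128 * ((D : ℕ) : ℝ≥0∞) ^ 6)) _ _).symm
      _ = (r : ℝ≥0∞) * (2 * (D : ℕ) ^ 2 * r : ℕ) * μ G := by
          rw [ENNReal.div_mul_cancel hD6 hD6', mul_comm]
  have hc : 0 < μ A / 2 / (128 * ((D : ℕ) : ℝ≥0∞) ^ 6) := by
    apply ENNReal.div_pos
    · exact (ENNReal.div_pos hpos.ne' (by norm_num)).ne'
    · exact ENNReal.mul_ne_top (by norm_num) (ENNReal.pow_ne_top (ENNReal.natCast_ne_top _))
  refine lt_of_lt_of_le hc (le_liminf_of_le (by isBoundedDefault) ?_)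
  exact eventually_atTop.2 ⟨8 * D ^ 4, hmain⟩

theorem Q2At_zero : Q2At 0 := by
  intro X _ _ μ _ T A hA hpos
  refine lt_of_lt_of_le hpos (le_liminf_of_le (by isBoundedDefault) ?_)
  refine Eventually.of_forall fun N => ?_
  have e : ∀ m n : ℕ+, μ (⋂ j : Fin (0 + 1), (T j).T (lin m n j) ⁻¹' A) = μ A := by
    intro m n
    have : (⋂ j : Fin (0 + 1), (T j).T (lin m n j) ⁻¹' A) =
        (T 0).T (lin m n ((0 : Fin (0 + 1)) : ℕ)) ⁻¹' A := by
      ext x
      rw [mem_iInter, Fin.forall_fin_one]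
    rw [this]
    exact ((T 0).mp _).measure_preimage hA.nullMeasurableSet
  have hNpos : (((N : ℕ) : ℝ≥0∞) ^ 2) ≠ 0 := by
    have := N.pos
    positivity
  unfold avg
  rw [ENNReal.le_div_iff_mul_le (Or.inl hNpos)
    (Or.inl (ENNReal.pow_ne_top (ENNReal.natCast_ne_top _)))]
  simp only [e, Finset.sum_const, PNat.card_Icc]
  have h4 : ((N : ℕ) + 1 - ((1 : ℕ+) : ℕ)) = (N : ℕ) := by simp
  rw [h4, nsmul_eq_mul, nsmul_eq_mul]
  apply le_of_eq
  ring

/-- **Q2 of MP_0a3467_an.** Positivity of the lower limit holds for all `(ℓ + 1)`-tuples of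
multiplicative actions if and only if `ℓ ≤ 1`. -/
theorem result : ∀ ℓ : ℕ, Q2At ℓ ↔ ℓ ≤ 1 := by
  intro ℓ
  constructor
  · intro h
    by_contra hc
    push Not at hc
    exact not_Q2At hc h
  · intro h
    interval_cases ℓ
    · exact Q2At_zero
    · exact Q2At_one

end Pool.Agent.Results.MP_0a3467_an.Dichotomy
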